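import Pool.Agent.Helper17.RZ.Sch.St
import Mathlib.RingTheory.LocalProperties.Projective
import Mathlib.RingTheory.LocalRing.Module

/-!
# Project RZ (MP_77656e_ag): a finitely generated projective lattice is free near every prime
-/

set_option autoImplicit false

open Pool.Agent.Helper17.RZ Pool.Agent.Helper17.RZ.Sch

namespace Pool.Agent.Helper51.RZ

universe u

theorem freeLoc : FreeLoc.{u} := by
  intro A K V _ _ _ _ _ _ _ _ _ L hfin hproj hc p hp
  classical
  set S : Submonoid A := p.primeCompl with hS
  -- the localization at `p` is free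
  have _ : Module.Finite (Localization.AtPrime p) (LocalizedModule S L) :=
    Module.Finite.of_isLocalizedModule S (Rₚ := Localization.AtPrime p)
      (LocalizedModule.mkLinearMap S L)
  have _ : Module.Projective (Localization.AtPrime p) (LocalizedModule S L) :=
    inferInstanceAs (Module.Projective (Localization S) (LocalizedModule S L))
  have hfree : Module.Free (Localization.AtPrime p) (LocalizedModule S L) :=
    Module.free_of_flat_of_isLocalRing
  set n := Module.finrank (Localization.AtPrime p) (LocalizedModule S L) with hn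
  let b : Module.Basis (Fin n) (Localization.AtPrime p) (LocalizedModule S L) :=
    Module.finBasis (Localization.AtPrime p) (LocalizedModule S L)
  set mk := LocalizedModule.mkLinearMap S L with hmk
  -- lift of the basis, up to units
  have h1 : ∀ j, ∃ (l : L) (s : S), s • b j = mk l := by
    intro j
    obtain ⟨⟨l, s⟩, h⟩ := IsLocalizedModule.surj S mk (b j)
    exact ⟨l, s, h⟩
  choose l s hls using h1
  -- linear independence over `A`
  have hinjA : Function.Injective (algebraMap A (Localization.AtPrime p)) :=
    IsLocalization.injective (Localization.AtPrime p) (p.primeCompl_le_nonZeroDivisors)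
  have hliA : LinearIndependent A (fun j => (l j : V)) := by
    rw [Fintype.linearIndependent_iff]
    intro a ha j
    have h2 : ∑ i, a i • l i = 0 := by
      apply Subtype.ext
      rw [Submodule.coe_sum]
      simpa using ha
    have h3 : ∑ i, (algebraMap A (Localization.AtPrime p) (a i * (s i : A))) • b i = 0 := by
      have h4 := congrArg mk h2
      rw [map_sum, map_zero] at h4
      rw [← h4]
      refine Finset.sum_congr rfl fun i _ => ?_
      rw [map_smul, ← hls i, algebraMap_smul, mul_smul]
      rfl
    have h5 := Fintype.linearIndependent_iff.mp b.linearIndependent _ h3 j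
    have h6 : a j * (s j : A) = 0 := hinjA (by rw [h5, map_zero])
    rcases mul_eq_zero.mp h6 with h | h
    · exact h
    · exact absurd (h ▸ (s j).2 : (0 : A) ∈ S) (fun h0 => h0 p.zero_mem)
  have hliK : LinearIndependent K (fun j => (l j : V)) :=
    (LinearIndependent.iff_fractionRing (R := A) (K := K)).mp hliA
  -- torsion free
  have htf : ∀ (c : A) (v : V), c ≠ 0 → c • v = 0 → v = 0 := by
    intro c v hc0 hcv
    rw [← algebraMap_smul K c v] at hcv
    rcases smul_eq_zero.mp hcv with h | h
    · exact absurd ((IsFractionRing.injective A K) (h.trans (map_zero _).symm)) hc0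
    · exact h
  -- every element of `L` is in the span of the `l j` up to an element of `S`
  set N : Submodule A V := Submodule.span A (Set.range fun j => (l j : V)) with hN
  have hgen : ∀ v ∈ L, ∃ r : A, r ∈ S ∧ r • v ∈ N := by
    intro v hv
    obtain ⟨t, ht⟩ := IsLocalization.exist_integer_multiples_of_finite S
      (fun j => b.repr (mk ⟨v, hv⟩) j)
    choose a ha using ht
    -- t • mk v = sum a_j • b_j
    have h7 : mk ((t : A) • ⟨v, hv⟩) = ∑ j, a j • b j := by
      rw [map_smul]
      conv_lhs => rw [← b.sum_repr (mk ⟨v, hv⟩)]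
      rw [Finset.smul_sum]
      refine Finset.sum_congr rfl fun j _ => ?_
      rw [← smul_assoc, ← ha j, algebraMap_smul]
    -- multiply by the product of the `s j`
    set P : S := ∏ j, s j with hP
    have h8 : ∀ j, ∃ q : A, (P : A) = q * (s j : A) := by
      intro j
      obtain ⟨q, hq⟩ := Finset.dvd_prod_of_mem (fun j => s j) (Finset.mem_univ j)
      refine ⟨(q : A), ?_⟩
      have := congrArg (fun x : S => (x : A)) hq
      simp only [Submonoid.coe_mul] at this
      rw [hP, this, mul_comm]
    choose q hq using h8
    have h9 : mk ((P : A) • (t : A) • (⟨v, hv⟩ : L)) = mk (∑ j, (a j * q j) • l j) := by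
      rw [map_smul, h7, map_sum, Finset.smul_sum]
      refine Finset.sum_congr rfl fun j _ => ?_
      rw [map_smul, ← hls j, hq j]
      change _ = (a j * q j) • (s j : A) • b j
      rw [smul_smul, smul_smul]
      congr 1
      ring
    obtain ⟨w, hw⟩ := (IsLocalizedModule.eq_iff_exists S mk).mp h9
    have h10 : (P : A) • (t : A) • (⟨v, hv⟩ : L) = ∑ j, (a j * q j) • l j := by
      apply Subtype.ext
      have h11 := congrArg (fun x : L => (x : V)) hw
      have h12 : (w : A) • ((((P : A) • (t : A) • (⟨v, hv⟩ : L) - ∑ j, (a j * q j) • l j : L)) : V) = 0 := by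
        have h13 : w • ((P : A) • (t : A) • (⟨v, hv⟩ : L) - ∑ j, (a j * q j) • l j) = 0 := by
          rw [smul_sub, hw, sub_self]
        have h14 := congrArg (fun x : L => (x : V)) h13
        exact h14
      have hw0 : (w : A) ≠ 0 := by
        intro h0
        have h19 : (w : A) ∉ p := w.2
        rw [h0] at h19
        exact h19 p.zero_mem
      have h15 := htf _ _ hw0 h12
      have h16 : ((P : A) • (t : A) • (⟨v, hv⟩ : L) - ∑ j, (a j * q j) • l j : L) = 0 :=
        Subtype.ext h15
      rw [sub_eq_zero] at h16
      rw [h16]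
    refine ⟨P * t, S.mul_mem P.2 t.2, ?_⟩
    have h17 := congrArg (fun x : L => (x : V)) h10
    have h18 : ((P : A) * (t : A)) • v = ∑ j, (a j * q j) • (l j : V) := by
      rw [mul_smul]
      have : (((∑ j, (a j * q j) • l j : L)) : V) = ∑ j, (a j * q j) • (l j : V) := by
        rw [Submodule.coe_sum]; rfl
      rw [← this]
      exact h17
    rw [h18]
    exact Submodule.sum_mem _ fun j _ => Submodule.smul_mem _ _ (Submodule.subset_span ⟨j, rfl⟩)
  -- a common element of `S`
  have hr : ∃ r : A, r ∈ S ∧ ∀ v ∈ L, r • v ∈ N := by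
    obtain ⟨T, hT⟩ := Module.Finite.iff_fg.mp hfin
    have hTL : ∀ t ∈ T, t ∈ L := fun t ht => hT ▸ Submodule.subset_span ht
    have : ∀ t : V, ∃ r : A, r ∈ S ∧ (t ∈ T → r • t ∈ N) := by
      intro t
      by_cases ht : t ∈ T
      · obtain ⟨r, hr, h⟩ := hgen t (hTL t ht)
        exact ⟨r, hr, fun _ => h⟩
      · exact ⟨1, S.one_mem, fun h => absurd h ht⟩
    choose r hrS hr using this
    refine ⟨∏ t ∈ T, r t, S.prod_mem fun t _ => hrS t, fun v hv => ?_⟩
    rw [← hT] at hv
    induction hv using Submodule.span_induction with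
    | mem x hx =>
      obtain ⟨c, hc⟩ := Finset.dvd_prod_of_mem r hx
      rw [hc, mul_comm, mul_smul]
      exact Submodule.smul_mem _ _ (hr x hx)
    | zero => rw [smul_zero]; exact Submodule.zero_mem _
    | add x y _ _ hx hy => rw [smul_add]; exact Submodule.add_mem _ hx hy
    | smul c x _ hx => rw [smul_comm]; exact Submodule.smul_mem _ _ hx
  obtain ⟨r, hrS, hr⟩ := hr
  have hr0 : r ≠ 0 := fun h0 => (hrS : r ∉ p) (h0 ▸ p.zero_mem)
  -- spanning
  have hNK : ∀ v ∈ N, v ∈ Submodule.span K (Set.range fun j => (l j : V)) := by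
    intro v hv
    exact (Submodule.span_le_restrictScalars A K _) hv
  have hspan : ⊤ ≤ Submodule.span K (Set.range fun j => (l j : V)) := by
    intro v _
    obtain ⟨c, hc0, hcv⟩ := hc v
    have h1 := hNK _ (hr _ hcv)
    have h2 : (algebraMap A K (r * c)) ≠ 0 := by
      intro h
      exact (mul_ne_zero hr0 hc0) ((IsFractionRing.injective A K) (h.trans (map_zero _).symm))
    have h3 : v = (algebraMap A K (r * c))⁻¹ • (r • c • v) := by
      rw [smul_smul r c v, ← algebraMap_smul K (r * c) v, smul_smul, inv_mul_cancel₀ h2, one_smul]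
    rw [h3]
    exact Submodule.smul_mem _ _ h1
  let e : Module.Basis (Fin n) K V := Module.Basis.mk hliK hspan
  have he : ∀ j, e j = (l j : V) := fun j => Module.Basis.mk_apply hliK hspan j
  refine ⟨r, n, e, hrS, fun j => by rw [he j]; exact (l j).2, fun v hv j => ?_⟩
  obtain ⟨c, hc'⟩ := (Submodule.mem_span_range_iff_exists_fun A).mp (hr v hv)
  refine ⟨c j, ?_⟩
  have h1 : algebraMap A K r • v = ∑ i, algebraMap A K (c i) • e i := by
    rw [algebraMap_smul, ← hc']
    refine Finset.sum_congr rfl fun i _ => ?_
    rw [he i, algebraMap_smul]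
  have h2 := congrArg (fun x => e.repr x j) h1
  simp only [map_smul, Finsupp.smul_apply, smul_eq_mul] at h2
  rw [h2, map_sum, Finsupp.finsetSum_apply, Finset.sum_eq_single j]
  · rw [map_smul, Finsupp.smul_apply, e.repr_self, Finsupp.single_eq_same, smul_eq_mul, mul_one]
  · intro i _ hij
    rw [map_smul, Finsupp.smul_apply, e.repr_self, Finsupp.single_eq_of_ne (by simpa using hij.symm),
      smul_zero]
  · intro h
    exact absurd (Finset.mem_univ j) h

end Pool.Agent.Helper51.RZ
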